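import Mathlib

namespace Pool.Agent.H.MP_db5e86_an

open Filter Topology Metric Bornology

lemma schw {f : ℂ → ℂ} {c d : ℂ} {ρ K : ℝ} (hρ : 0 < ρ) (hd : DifferentiableOn ℂ f (ball c ρ))
    (hK : ∀ z ∈ ball c ρ, ‖f z‖ ≤ K) (h : HasDerivAt f d c) : ‖d‖ ≤ 2 * K / ρ := by
  rw [← h.deriv]
  refine Complex.norm_deriv_le_div_of_mapsTo_ball hd (fun z hz => ?_) hρ
  rw [mem_closedBall, dist_eq_norm]
  have := hK z hz
  have := hK c (mem_ball_self hρ)
  linarith [norm_sub_le (f z) (f c)]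

variable {F : ℂ → ℂ} {Y : Set ℂ}

lemma iter_deriv (h2 : ∀ z, F z ∈ Y → z ∈ Y ∧ ∃ d, d ≠ 0 ∧ HasDerivAt F d z) (k : ℕ) :
    ∀ z, F^[k] z ∈ Y → z ∈ Y ∧ ∃ d, d ≠ 0 ∧ HasDerivAt F^[k] d z := by
  induction k with
  | zero => exact fun z hz => ⟨hz, 1, one_ne_zero, hasDerivAt_id z⟩
  | succ k ih =>
    intro z hz
    rw [Function.iterate_succ_apply] at hz
    obtain ⟨a1, d1, hd1, e1⟩ := ih _ hz
    obtain ⟨a2, d2, hd2, e2⟩ := h2 _ a1
    exact ⟨a2, d1 * d2, mul_ne_zero hd1 hd2, e1.comp z e2⟩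

lemma iter_lift {A : Type} [TopologicalSpace A] [SimplyConnectedSpace A]
    [LocallyPathConnectedSpace A] (h1 : IsCoveringMapOn F Y)
    (h2 : ∀ z, F z ∈ Y → z ∈ Y ∧ ∃ d, d ≠ 0 ∧ HasDerivAt F d z) (f : C(A, ℂ))
    (hf : ∀ a, f a ∈ Y) (a0 : A) (k : ℕ) :
    ∀ x, F^[k] x = f a0 → ∃ g : C(A, ℂ), g a0 = x ∧ ∀ a, F^[k] (g a) = f a := by
  induction k with
  | zero => exact fun x hx => ⟨f, hx.symm, fun _ => rfl⟩
  | succ k ih =>
    intro x hx
    rw [Function.iterate_succ_apply] at hx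
    obtain ⟨g1, hg1, hg1'⟩ := ih _ hx
    obtain ⟨g, ⟨hg, hg'⟩, -⟩ := h1.existsUnique_continuousMap_lifts g1 (e₀ := x) hg1.symm
      (fun a => (iter_deriv h2 k _ (by rw [hg1']; exact hf a)).1)
    refine ⟨g, hg, fun a => ?_⟩
    rw [Function.iterate_succ_apply, ← hg1', ← hg']; rfl

lemma expand (h1 : IsCoveringMapOn F Y)
    (h2 : ∀ z, F z ∈ Y → z ∈ Y ∧ ∃ d, d ≠ 0 ∧ HasDerivAt F d z) {a0 : ℂ} {r : ℝ} (hr : 0 < r)
    (h3 : ∀ z ∈ Y, r ≤ ‖z - a0‖) (k : ℕ) (x d : ℂ) (hd : HasDerivAt F^[k] d x) {ρ : ℝ}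
    (hρ : 0 < ρ) (hB : ball (F^[k] x) ρ ⊆ Y) : ρ * r ≤ 2 * ‖x - a0‖ ^ 2 * ‖d‖ := by
  set c := F^[k] x with hc
  have := (convex_ball c ρ).contractibleSpace (nonempty_ball.2 hρ)
  have := (convex_ball c ρ).locallyPathConnectedSpace
  obtain ⟨g, hg, hg'⟩ := iter_lift (A := ball c ρ) h1 h2 ⟨Subtype.val, continuous_subtype_val⟩
    (fun a => hB a.2) ⟨c, mem_ball_self hρ⟩ k x rfl
  classical
  let G : ℂ → ℂ := fun z => if h : z ∈ ball c ρ then g ⟨z, h⟩ else 0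
  have hG : ∀ z (h : z ∈ ball c ρ), G z = g ⟨z, h⟩ := fun z h => dif_pos h
  have hGc : ContinuousOn G (ball c ρ) := by
    rw [continuousOn_iff_continuous_domRestrict]
    convert g.continuous using 1
    funext a; exact hG a.1 a.2
  have hFG : ∀ z ∈ ball c ρ, F^[k] (G z) = z := fun z h => by rw [hG z h]; exact hg' _
  have hGd : ∀ z ∈ ball c ρ, ∀ e, e ≠ 0 → HasDerivAt F^[k] e (G z) → HasDerivAt G e⁻¹ z :=
    fun z h e he he' => HasDerivAt.of_local_left_inverse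
      (hGc.continuousAt (isOpen_ball.mem_nhds h)) he' he
      (by filter_upwards [isOpen_ball.mem_nhds h] with y hy using hFG y hy)
  have hY := fun z (h : z ∈ ball c ρ) => iter_deriv h2 k (G z) (by rw [hFG z h]; exact hB h)
  have hne : ∀ z ∈ ball c ρ, G z - a0 ≠ 0 := fun z h =>
    norm_pos_iff.1 (hr.trans_le (h3 _ (hY z h).1))
  have hGx : G c = x := by rw [hG c (mem_ball_self hρ)]; exact hg
  have hd0 : d ≠ 0 := by
    obtain ⟨e, he, he'⟩ := (hY c (mem_ball_self hρ)).2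
    rw [hGx] at he'
    rwa [hd.unique he']
  have key := schw (f := fun z => (G z - a0)⁻¹) (K := r⁻¹) hρ
    (fun z h => by
      obtain ⟨e, he, he'⟩ := (hY z h).2
      exact (((hGd z h e he he').sub_const a0).inv (hne z h)).differentiableAt.differentiableWithinAt)
    (fun z h => by rw [norm_inv]; exact inv_anti₀ hr (h3 _ (hY z h).1))
    (((hGd c (mem_ball_self hρ) d hd0 (by rwa [hGx])).sub_const a0).inv (hne c (mem_ball_self hρ)))
  have hx : 0 < ‖x - a0‖ := by rw [← hGx]; exact norm_pos_iff.2 (hne c (mem_ball_self hρ))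
  have hd1 : 0 < ‖d‖ := norm_pos_iff.2 hd0
  rw [hGx, norm_div, norm_neg, norm_inv, norm_pow] at key
  field_simp at key
  linarith

theorem dyn (h1 : IsCoveringMapOn F Y)
    (h2 : ∀ z, F z ∈ Y → z ∈ Y ∧ ∃ d, d ≠ 0 ∧ HasDerivAt F d z) {a0 : ℂ} {r : ℝ} (hr : 0 < r)
    (h3 : ∀ z ∈ Y, r ≤ ‖z - a0‖) {R : ℝ} (hR : 0 < R) (h4 : ∀ z, R ≤ ‖z‖ → z ∈ Y) {c : ℂ}
    (hc : c ≠ 0) (m : ℕ)
    (h5 : Tendsto (fun z => c * F z ^ (m + 1) - c * z ^ (m + 1)) (cobounded ℂ) (𝓝 1)) : False := by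
  set w : ℂ → ℂ := fun z => c * z ^ (m + 1) with hw
  have hbig : ∀ S : ℝ, ∃ T : ℝ, ∀ z, T ≤ (w z).re → S ≤ ‖z‖ := by
    intro S
    refine ⟨‖c‖ * |S| ^ (m + 1) + 1, fun z hz => ?_⟩
    by_contra hn
    have e1 : ‖z‖ ≤ |S| := (not_le.1 hn).le.trans (le_abs_self S)
    have e2 := Complex.re_le_norm (w z)
    have e3 : ‖w z‖ ≤ ‖c‖ * |S| ^ (m + 1) := by
      simp only [hw, norm_mul, norm_pow]; gcongr
    linarith
  have heps : ∀ η : ℝ, 0 < η → ∃ T : ℝ, ∀ z, T ≤ (w z).re → ‖w (F z) - w z - 1‖ ≤ η := by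
    intro η hη
    have := (Metric.tendsto_nhds.1 h5) η hη
    obtain ⟨S, -, hS⟩ := (hasBasis_cobounded_norm.eventually_iff).1 this
    obtain ⟨T, hT⟩ := hbig S
    exact ⟨T, fun z hz => by simpa [dist_eq_norm] using (hS (hT z hz)).le⟩
  obtain ⟨T1, hT1⟩ := heps (1 / 2) (by norm_num)
  obtain ⟨T2, hT2⟩ := hbig (2 * R)
  set T := max (max T1 T2) 0 with hT
  have hTa : T1 ≤ T := (le_max_left _ _).trans (le_max_left _ _)
  have hTb : T2 ≤ T := (le_max_right _ _).trans (le_max_left _ _)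
  have hT0 : 0 ≤ T := le_max_right _ _
  have horb : ∀ z, T ≤ (w z).re → ∀ n : ℕ, T + n / 2 ≤ (w (F^[n] z)).re := by
    intro z hz n
    induction n with
    | zero => simpa using hz
    | succ n ih =>
      have hn : (0:ℝ) ≤ n / 2 := by positivity
      have e1 := hT1 (F^[n] z) (by linarith)
      have e2 := (abs_le.1 ((Complex.abs_re_le_norm _).trans e1)).1
      rw [Function.iterate_succ_apply']
      simp only [Complex.sub_re, Complex.one_re] at e2
      push_cast; linarith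
  obtain ⟨z0, hz0⟩ := IsAlgClosed.exists_pow_nat_eq (((T + 1 : ℝ) : ℂ) / c) (Nat.succ_pos m)
  have hz0' : T < (w z0).re := by
    simp only [hw]; rw [Nat.succ_eq_add_one] at hz0
    rw [hz0, mul_div_cancel₀ _ hc]; simp
  have hwc : Continuous w := by fun_prop
  obtain ⟨δ, hδ, hδ'⟩ := Metric.eventually_nhds_iff_ball.1
    ((Complex.continuous_re.comp hwc).continuousAt.eventually (lt_mem_nhds hz0'))
  have hnY : ∀ z ∈ ball z0 δ, ∀ n : ℕ, 2 * R ≤ ‖F^[n] z‖ := by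
    intro z hz n
    have hn : (0:ℝ) ≤ n / 2 := by positivity
    exact hT2 _ (by linarith [horb z (hδ' z hz).le n])
  have hder : ∀ z ∈ ball z0 δ, ∀ n : ℕ, ∃ d, HasDerivAt F^[n] d z := fun z hz n => by
    obtain ⟨d, -, hd⟩ := (iter_deriv h2 n z (h4 _ (by linarith [hnY z hz n]))).2
    exact ⟨d, hd⟩
  have hwd : ∀ z, HasDerivAt w (c * ((m + 1 : ℕ) * z ^ m)) z := fun z => by
    simpa using (hasDerivAt_pow (m + 1) z).const_mul c
  set K : ℝ := 4 * ‖z0 - a0‖ ^ 2 / r + 1 with hK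
  have hK0 : 0 < K := by positivity
  obtain ⟨T3, hT3⟩ := heps (δ / (8 * K)) (by positivity)
  obtain ⟨k0, hk0⟩ := exists_nat_ge (2 * T3)
  obtain ⟨B, hB⟩ : ∃ B : ℝ, ∀ z ∈ ball z0 δ, ‖w z‖ ≤ B := by
    obtain ⟨B, hB⟩ := (isCompact_closedBall z0 δ).exists_bound_of_continuousOn hwc.continuousOn
    exact ⟨B, fun z hz => hB z (ball_subset_closedBall hz)⟩
  have hsum : ∀ z ∈ ball z0 δ, ∀ n : ℕ, ‖w (F^[n] z) - n‖ ≤
      B + min (n : ℝ) k0 / 2 + n * (δ / (8 * K)) := by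
    intro z hz n
    induction n with
    | zero => simpa using hB z hz
    | succ n ih =>
      rw [Function.iterate_succ_apply']
      have e : w (F (F^[n] z)) - ((n + 1 : ℕ) : ℂ) =
          (w (F (F^[n] z)) - w (F^[n] z) - 1) + (w (F^[n] z) - n) := by push_cast; ring
      rw [e]
      refine (norm_add_le _ _).trans ?_
      have hn : (0:ℝ) ≤ n / 2 := by positivity
      have o := horb z (hδ' z hz).le n
      have hη : 0 < δ / (8 * K) := by positivity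
      push_cast
      rcases le_or_gt k0 n with h | h
      · have h' : (k0 : ℝ) ≤ n := by exact_mod_cast h
        have := hT3 (F^[n] z) (by linarith)
        rw [min_eq_right h'] at ih
        rw [min_eq_right (by linarith)]
        linarith
      · have h' : (n : ℝ) + 1 ≤ k0 := by exact_mod_cast h
        have := hT1 (F^[n] z) (by linarith)
        rw [min_eq_left (by linarith)] at ih
        rw [min_eq_left h']
        linarith
  have final : ∀ n : ℕ, (n : ℝ) / (4 * K) ≤ 2 * (B + k0 / 2) / δ := by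
    intro n
    obtain ⟨d, hd⟩ := hder z0 (mem_ball_self hδ) n
    have up := schw (f := fun z => w (F^[n] z) - n) (K := B + k0 / 2 + n * (δ / (8 * K))) hδ
      (fun z hz => by
        obtain ⟨e, he⟩ := hder z hz n
        exact (((hwd _).comp z he).sub_const _).differentiableAt.differentiableWithinAt)
      (fun z hz => (hsum z hz n).trans (by linarith [min_le_right (n : ℝ) k0]))
      (((hwd _).comp z0 hd).sub_const _)
    set y := F^[n] z0 with hy
    have hy2 : 2 * R ≤ ‖y‖ := hnY z0 (mem_ball_self hδ) n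
    have low := expand h1 h2 hr h3 n z0 d hd (ρ := ‖y‖ / 2) (by linarith) (fun z hz => h4 z (by
      rw [mem_ball, dist_eq_norm] at hz
      have := norm_sub_norm_le y z
      rw [norm_sub_rev] at this
      linarith))
    have l2 : ‖y‖ ≤ K * ‖d‖ := by
      have : ‖y‖ ≤ 4 * ‖z0 - a0‖ ^ 2 / r * ‖d‖ := by
        rw [div_mul_eq_mul_div, le_div_iff₀ hr]; linarith
      rw [hK]; nlinarith [norm_nonneg d]
    have l3 : (n : ℝ) / 2 ≤ ‖c‖ * (‖y‖ ^ m * ‖y‖) := by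
      have := horb z0 hz0'.le n
      have e2 := Complex.re_le_norm (w y)
      simp only [hw, norm_mul, norm_pow, pow_succ] at e2 this
      linarith
    have l4 : ‖c‖ * (‖y‖ ^ m * ‖d‖) ≤ ‖c * ((m + 1 : ℕ) * y ^ m) * d‖ := by
      simp only [norm_mul, norm_pow, Complex.norm_natCast]
      push_cast
      have : 0 ≤ ‖c‖ * (‖y‖ ^ m * ‖d‖) * m := by positivity
      nlinarith
    have l5 : (n : ℝ) / (2 * K) ≤ ‖c‖ * (‖y‖ ^ m * ‖d‖) := by
      rw [div_le_iff₀ (by positivity)]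
      have : ‖c‖ * (‖y‖ ^ m * ‖y‖) ≤ ‖c‖ * (‖y‖ ^ m * (K * ‖d‖)) := by gcongr
      nlinarith
    have l6 : 2 * (B + k0 / 2 + n * (δ / (8 * K))) / δ = 2 * (B + k0 / 2) / δ + n / (4 * K) := by
      field_simp; ring
    have l7 : (n : ℝ) / (2 * K) = n / (4 * K) + n / (4 * K) := by field_simp; ring
    linarith
  obtain ⟨n, hn⟩ := exists_nat_gt (2 * (B + k0 / 2) / δ * (4 * K))
  have := final n
  rw [div_le_iff₀ (by positivity)] at this
  linarith

end Pool.Agent.H.MP_db5e86_an
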