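import Pool.Agent.H.MP_db5e86_an.Dyn

namespace Pool.Agent.H.MP_db5e86_an

open Filter Topology Metric Bornology Polynomial

lemma ev_ne (p : ℂ[X]) (hp : p ≠ 0) : ∀ᶠ z in cobounded ℂ, p.eval z ≠ 0 :=
  Bornology.isBounded_def.1 (Polynomial.finite_setOfPred_isRoot hp).isBounded

lemma degs (P Q : ℂ[X]) (hP : P ≠ 0) (hQ : Q ≠ 0) :
    P.degree ≤ (Q * P + derivative P).degree ∧
    ((Q * P + derivative P) - C Q.leadingCoeff * X ^ Q.natDegree * P).degree <
      (Q * P + derivative P).degree := by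
  have h1 : P.degree ≤ (Q * P).degree := by rw [mul_comm]; exact degree_le_mul_left P hQ
  have h2 : (derivative P).degree < (Q * P).degree := (degree_derivative_lt hP).trans_le h1
  rw [degree_add_eq_left_of_degree_lt h2]
  refine ⟨h1, ?_⟩
  have e : (Q * P + derivative P) - C Q.leadingCoeff * X ^ Q.natDegree * P =
      Q.eraseLead * P + derivative P := by
    rw [← self_sub_C_mul_X_pow]; ring
  rw [e]
  refine (degree_add_le _ _).trans_lt (max_lt ?_ h2)
  rw [degree_mul, degree_mul]
  exact WithBot.add_lt_add_right (degree_ne_bot.2 hP) (degree_eraseLead_lt hQ)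

theorem root_case (P Q : ℂ[X]) (hP : P ≠ 0) (hQ : Q ≠ 0)
    (hs : ∀ z, P.eval z = 0 → (derivative P).eval z ≠ 0) (a0 : ℂ) (ha : P.eval a0 = 0)
    (hE : ∀ z, (Q * P + derivative P).eval z ≠ 0 →
      (Q * (Q * P + derivative P) + derivative (Q * P + derivative P)).eval z = 0 →
      P.eval z = 0) : False := by
  obtain ⟨d1, d2⟩ := degs P Q hP hQ
  set D := Q * P + derivative P with hD
  set E := Q * D + derivative D with hEd
  have hD0 : D ≠ 0 := by
    intro h; rw [h, degree_zero, le_bot_iff, degree_eq_bot] at d1; exact hP d1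
  have hcop : ∀ z, P.eval z = 0 → D.eval z ≠ 0 := fun z hz => by
    simpa [hD, hz] using hs z hz
  classical
  let F : ℂ → ℂ := fun z => if D.eval z = 0 then a0 else z - P.eval z / D.eval z
  have hF : ∀ z, D.eval z ≠ 0 → F z = z - P.eval z / D.eval z := fun z hz => if_neg hz
  have hF' : ∀ z, D.eval z = 0 → F z = a0 := fun z hz => if_pos hz
  have hder : ∀ z, D.eval z ≠ 0 →
      HasStrictDerivAt F (P.eval z * E.eval z / D.eval z ^ 2) z := by
    intro z hz
    have h1 := (hasStrictDerivAt_id z).sub ((P.hasStrictDerivAt z).div (D.hasStrictDerivAt z) hz)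
    have h2 : 1 - ((derivative P).eval z * D.eval z - P.eval z * (derivative D).eval z) /
        D.eval z ^ 2 = P.eval z * E.eval z / D.eval z ^ 2 := by
      have : (derivative P).eval z = D.eval z - Q.eval z * P.eval z := by simp [hD]
      rw [this]
      simp only [hEd, eval_add, eval_mul]
      field_simp; ring
    rw [h2] at h1
    refine h1.congr_of_eventuallyEq ?_
    filter_upwards [D.continuous.continuousAt.eventually_ne hz] with y hy
    exact (hF y hy).symm
  have hFa : F a0 = a0 := by rw [hF _ (hcop _ ha), ha]; simp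
  obtain ⟨r, hr, hr'⟩ : ∃ r > 0, ∀ z ∈ ball a0 r, ‖F z - a0‖ ≤ 1 / 2 * ‖z - a0‖ := by
    have := (hder a0 (hcop _ ha)).hasDerivAt
    rw [ha, zero_mul, zero_div, hasDerivAt_iff_isLittleO] at this
    have h2 := this.def (c := 1 / 2) (by norm_num)
    simp only [smul_zero, sub_zero, hFa] at h2
    exact Metric.eventually_nhds_iff_ball.1 h2
  let Y : Set ℂ := {z | r ≤ ‖z - a0‖ ∧ P.eval z ≠ 0}
  have hY : ∀ z, F z ∈ Y → z ∈ Y ∧ D.eval z ≠ 0 ∧ P.eval z * E.eval z / D.eval z ^ 2 ≠ 0 := by
    intro z hz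
    have e1 : D.eval z ≠ 0 := fun h => hz.2 (by rw [hF' z h, ha])
    have e2 : P.eval z ≠ 0 := fun h => hz.2 (by rw [hF z e1, h]; simpa using h)
    refine ⟨⟨?_, e2⟩, e1, div_ne_zero (mul_ne_zero e2 fun h => e2 (hE z e1 h)) (pow_ne_zero _ e1)⟩
    by_contra hn
    have := hr' z (by rw [mem_ball, dist_eq_norm]; exact not_le.1 hn)
    have := hz.1
    linarith [not_le.1 hn]
  have hu : Tendsto (fun z => P.eval z / (X * D).eval z) (cobounded ℂ) (𝓝 0) := by
    refine (isLittleO_cobounded_of_degree_lt ?_).tendsto_div_nhds_zero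
    refine d1.trans_lt ?_
    rw [mul_comm]; exact degree_lt_degree_mul_X hD0
  have hv : Tendsto (fun z => Q.leadingCoeff * z ^ Q.natDegree * P.eval z / D.eval z)
      (cobounded ℂ) (𝓝 1) := by
    have := ((isLittleO_cobounded_of_degree_lt d2).tendsto_div_nhds_zero).const_sub 1
    rw [sub_zero] at this
    refine this.congr' ?_
    filter_upwards [ev_ne D hD0] with z hz
    simp only [eval_sub, eval_mul, eval_C, eval_pow, eval_X]
    field_simp; ring
  obtain ⟨R0, -, hR0⟩ := (hasBasis_cobounded_norm.eventually_iff).1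
    (((ev_ne D hD0).and (ev_ne P hP)).and ((ev_ne X X_ne_zero).and
      (hu.norm.eventually (gt_mem_nhds (by norm_num : ‖(0:ℂ)‖ < 1 / 2)))))
  have hbd : ∀ x y : ℂ, D.eval x * (x - y) = P.eval x → ‖x‖ ≤ max R0 (2 * ‖y‖) := by
    intro x y h
    rcases le_total ‖x‖ R0 with h1 | h1
    · exact h1.trans (le_max_left _ _)
    · obtain ⟨⟨a1, -⟩, a2, a3⟩ := hR0 h1
      refine le_trans ?_ (le_max_right _ _)
      rw [eval_X] at a2
      rw [← h, eval_mul, eval_X, mul_comm x, mul_div_mul_left _ _ a1, norm_div,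
        div_lt_iff₀ (norm_pos_iff.2 a2)] at a3
      linarith [norm_sub_norm_le x y]
  have hclosed : IsClosedMap F := by
    intro S hS
    have e : F '' S = F '' (S ∩ {z | D.IsRoot z}) ∪
        {y | ∃ x ∈ S, D.eval x * (x - y) = P.eval x} := by
      ext y
      constructor
      · rintro ⟨x, hx, rfl⟩
        by_cases h : D.eval x = 0
        · exact Or.inl ⟨x, ⟨hx, h⟩, rfl⟩
        · refine Or.inr ⟨x, hx, ?_⟩
          rw [hF x h]; field_simp; ring
      · rintro (⟨x, hx, rfl⟩ | ⟨x, hx, h⟩)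
        · exact ⟨x, hx.1, rfl⟩
        · have h0 : D.eval x ≠ 0 := fun h0 => hcop x (by rw [← h, h0, zero_mul]) h0
          refine ⟨x, hx, ?_⟩
          rw [hF x h0, ← h]; field_simp; ring
    rw [e]
    refine (((Polynomial.finite_setOfPred_isRoot hD0).inter_of_right S).image F).isClosed.union ?_
    refine IsSeqClosed.isClosed fun y y0 hy hlim => ?_
    choose x hxS hx using hy
    obtain ⟨B, hB⟩ := hlim.norm.bddAbove_range
    obtain ⟨x0, -, φ, hφ, hl⟩ := tendsto_subseq_of_bounded
      (isBounded_closedBall (x := (0:ℂ)) (r := max R0 (2 * B))) (x := x) (fun n => by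
        rw [mem_closedBall_zero_iff]
        exact (hbd _ _ (hx n)).trans (max_le_max le_rfl (by linarith [hB ⟨n, rfl⟩])))
    refine ⟨x0, hS.mem_of_tendsto hl (Eventually.of_forall fun n => hxS _), ?_⟩
    have t1 := ((D.continuous.tendsto x0).comp hl).mul (hl.sub (hlim.comp hφ.tendsto_atTop))
    have t2 := (P.continuous.tendsto x0).comp hl
    exact tendsto_nhds_unique t1 (t2.congr fun n => (hx _).symm)
  have hcov : IsCoveringMapOn F Y := by
    refine hclosed.isCoveringMapOn_of_isLocalHomeomorphOn (fun y hy => ?_) fun x hx =>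
      ⟨_, ((hder x (hY x hx).2.1).hasStrictFDerivAt_equiv
        (hY x hx).2.2).mem_toOpenPartialHomeomorph_source, by simp⟩
    have hne : D * (X - C y) - P ≠ 0 := by
      intro h
      have h2 := hbd ((max R0 (2 * ‖y‖) + 1 : ℝ) : ℂ) y (by
        have := congrArg (eval ((max R0 (2 * ‖y‖) + 1 : ℝ) : ℂ)) h
        simpa [sub_eq_zero] using this)
      rw [Complex.norm_real] at h2
      linarith [Real.le_norm_self (max R0 (2 * ‖y‖) + 1)]
    refine (Polynomial.finite_setOfPred_isRoot hne).subset fun x hx => ?_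
    have hx' : F x = y := hx
    have h0 := (hY x (hx' ▸ hy)).2.1
    simp only [Set.mem_ofPred_eq, IsRoot, eval_sub, eval_mul, eval_X, eval_C]
    rw [← hx', hF x h0]; field_simp; ring
  have hm : ((Q.natDegree + 1 : ℕ) : ℂ) ≠ 0 := Nat.cast_ne_zero.2 (Nat.succ_ne_zero _)
  refine dyn hcov (fun z hz => ⟨(hY z hz).1, _, (hY z hz).2.2, (hder z (hY z hz).2.1).hasDerivAt⟩)
    hr (fun z hz => hz.1) (R := max R0 (‖a0‖ + r)) (lt_max_of_lt_right (by positivity))
    (fun z hz => ⟨?_, (hR0 ((le_max_left _ _).trans hz)).1.2⟩)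
    (c := -Q.leadingCoeff / ((Q.natDegree + 1 : ℕ) : ℂ))
    (div_ne_zero (neg_ne_zero.2 (leadingCoeff_ne_zero.2 hQ)) hm) Q.natDegree ?_
  · linarith [norm_sub_norm_le z a0, le_max_right R0 (‖a0‖ + r)]
  · have t1 : Tendsto (fun z => ∑ i ∈ Finset.range (Q.natDegree + 1),
        (1 - P.eval z / (X * D).eval z) ^ i) (cobounded ℂ)
        (𝓝 (∑ i ∈ Finset.range (Q.natDegree + 1), (1 - 0) ^ i)) :=
      tendsto_finsetSum _ fun i _ => (hu.const_sub 1).pow i
    have t2 := (hv.mul t1).div_const ((Q.natDegree + 1 : ℕ) : ℂ)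
    simp only [sub_zero, one_pow, Finset.sum_const, Finset.card_range, nsmul_eq_mul, mul_one,
      one_mul, div_self hm] at t2
    refine t2.congr' ?_
    filter_upwards [ev_ne D hD0, ev_ne X X_ne_zero] with z hz hz0
    rw [eval_X] at hz0
    have e1 : F z = z * (1 - P.eval z / (X * D).eval z) := by
      rw [hF z hz, eval_mul, eval_X]; field_simp
    have e2 := geom_sum_mul (1 - P.eval z / (X * D).eval z) (Q.natDegree + 1)
    have e3 : Q.leadingCoeff * z ^ Q.natDegree * P.eval z / D.eval z =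
        Q.leadingCoeff * z ^ (Q.natDegree + 1) * (P.eval z / (X * D).eval z) := by
      rw [eval_mul, eval_X]; field_simp; ring
    rw [e1, e3, mul_pow, eq_sub_iff_add_eq.1 e2 |>.symm]
    field_simp; ring

theorem const_case (Q : ℂ[X]) (hQ : 0 < Q.natDegree)
    (hE : ∀ z, (Q * Q + derivative Q).eval z = 0 → Q.eval z = 0) : False := by
  have hQ0 : Q ≠ 0 := by rintro rfl; simp at hQ
  have hQ' : derivative Q ≠ 0 := by
    intro h; have := derivative_eq_zero.1 h; omega
  have hd : (Q * Q + derivative Q).natDegree = Q.natDegree + Q.natDegree := by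
    rw [natDegree_add_eq_left_of_natDegree_lt, natDegree_mul hQ0 hQ0]
    rw [natDegree_mul hQ0 hQ0]
    have := natDegree_derivative_le Q
    omega
  have hE0 : Q * Q + derivative Q ≠ 0 := by
    intro h; rw [h, natDegree_zero] at hd; omega
  have hle : (Q * Q + derivative Q).roots ≤ Q.roots := by
    classical
    rw [Multiset.le_iff_count]
    intro z
    rw [count_roots, count_roots]
    by_contra hn
    have h1 : Q.rootMultiplicity z + 1 ≤ (Q * Q + derivative Q).rootMultiplicity z := by omega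
    have hz : Q.IsRoot z := hE z ((rootMultiplicity_pos hE0).1 (by omega))
    have hk := (rootMultiplicity_pos hQ0).2 hz
    have a1 := (le_rootMultiplicity_iff hE0).1 h1
    have a2 : (X - C z) ^ (Q.rootMultiplicity z + 1) ∣ Q * Q := by
      rw [pow_succ]
      exact mul_dvd_mul (pow_rootMultiplicity_dvd Q z) (dvd_iff_isRoot.2 hz)
    have a3 := (le_rootMultiplicity_iff hQ').2 ((dvd_add_right a2).1 a1)
    rw [derivative_rootMultiplicity_of_root hz] at a3
    omega
  have := Multiset.card_le_card hle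
  rw [IsAlgClosed.card_roots_eq_natDegree, IsAlgClosed.card_roots_eq_natDegree] at this
  omega

end Pool.Agent.H.MP_db5e86_an
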